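import Mathlib
import Pool.Agent.Lib.MP_663fff_lc.Defs
import Pool.Agent.Lib.MP_663fff_lc.Main

/-!
# MP_663fff_lc: communication complexity of slack matrices of 2-level polytopes, from the
vertex figures

Let `P = conv V` be a 2-level polytope of dimension `d ≥ 1`, and suppose that its vertices are
covered by `2 ^ k` faces, each with a chosen vertex whose vertex figure (facets of `P` through this
vertex against edges of the face at this vertex) has a rectangle cover of size `2 ^ c`. Then the
slack matrix of `P` has deterministic communication complexity at most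
`k + 2 (c + 1) ⌈log₂ d⌉ + 3`.
-/

namespace Pool.Agent.Results.MP_663fff_lc.VertexFigure

open Pool.Agent.Lib.MP_663fff_lc Module

theorem result : ∀ (d k c : ℕ), 1 ≤ d → ∀ V : Finset (EuclideanSpace ℝ (Fin d)),
    IsTwoLevel V d →
    ∀ (g : Fin (2 ^ k) → (EuclideanSpace ℝ (Fin d) →ₗ[ℝ] ℝ) × ℝ)
      (v : Fin (2 ^ k) → EuclideanSpace ℝ (Fin d)),
      (∀ j, Valid V (g j)) → (∀ x ∈ V, ∃ j, x ∈ tight V (g j)) →
      (∀ j, v j ∈ tight V (g j) ∧ FigureCover V d (g j) (v j) c) →
      HasProtocol
        (fun (p : {p : (EuclideanSpace ℝ (Fin d) →ₗ[ℝ] ℝ) × ℝ // IsFacet V d p}) (x : V) =>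
          x.1 ∈ tight V p.1)
        Set.univ Set.univ (k + 2 * (c + 1) * Nat.clog 2 d + 3) := by
  intro d k c hd V hV g v hg hcov hfig
  have hfr : finrank ℝ (EuclideanSpace ℝ (Fin d)) = d := finrank_euclideanSpace_fin
  obtain ⟨_, hspan, htwo⟩ := hV
  have hTL : TL V := ⟨hspan, by rw [hfr]; exact hd, by rw [hfr]; exact htwo⟩
  have h := main_protocol hTL g v hg (fun j => (hfig j).1) hcov
    (fun j => by rw [hfr]; exact (hfig j).2) (k := k) (c := c)
  rw [hfr] at h
  exact h

end Pool.Agent.Results.MP_663fff_lc.VertexFigure
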